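import Pool.Agent.PVD.StmtsG

/-! Squad PVD, row FAE: the area of a facet. -/

set_option autoImplicit false

open MeasureTheory Metric Set Filter Topology

namespace PVD.H30

open PV PV3 PVD

/-- a permutation moving one set to another of the same size -/
theorem exists_perm {m : ℕ} (A B : Finset (Fin m)) (h : A.card = B.card) :
    ∃ σ : Equiv.Perm (Fin m), A.map σ.toEmbedding = B := by
  obtain ⟨e⟩ : Nonempty ({x // x ∈ A} ≃ {x // x ∈ B}) := ⟨Finset.equivOfCardEq h⟩
  refine ⟨e.extendSubtype, ?_⟩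
  apply Finset.eq_of_subset_of_card_le
  · intro b hb
    obtain ⟨a, ha, rfl⟩ := Finset.mem_map.1 hb
    show e.extendSubtype a ∈ B
    rw [e.extendSubtype_apply_of_mem a ha]
    exact (e ⟨a, ha⟩).2
  · rw [Finset.card_map, h]

theorem proj_T {n : ℕ} (T : E n ≃ₗᵢ[ℝ] E n) (w x : E n) :
    T (proj w x) = proj (T w) (T x) := by
  unfold proj
  rw [map_sub, map_smul, T.inner_map_map]

theorem ar_T {n : ℕ} (T : E n ≃ₗᵢ[ℝ] E n) (w : E n) (S S' : Set (E n))
    (h : ∀ x, T x ∈ S' ↔ x ∈ S) : ar (T w) S' = ar w S := by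
  have key : T ⁻¹' (Pr (T w) S') = Pr w S := by
    ext y
    constructor
    · rintro ⟨x', hx', s, hs, hy⟩
      refine ⟨T.symm x', ?_, s, hs, ?_⟩
      · rw [← h, T.apply_symm_apply]; exact hx'
      · apply T.injective
        rw [hy, map_add, map_smul, proj_T, T.apply_symm_apply]
    · rintro ⟨x, hx, s, hs, rfl⟩
      exact ⟨T x, (h x).2 hx, s, hs, by rw [map_add, map_smul, proj_T]⟩
  unfold ar vl
  rw [← key]
  congr 1
  exact (T.measurePreserving.measure_preimage_emb
    T.toHomeomorph.measurableEmbedding (Pr (T w) S')).symm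

theorem PP_iff {n : ℕ} (φ : E n →ₗᵢ[ℝ] E (n + 1)) (R : Finset ℕ) (H : ℕ → ℝ)
    (σ : Equiv.Perm (Fin (n + 1))) (T : E n ≃ₗᵢ[ℝ] E n)
    (hT : ∀ x i, φ (T x) (σ i) = φ x i) (x : E n) : T x ∈ PP φ R H ↔ x ∈ PP φ R H := by
  constructor
  · intro h r hr A hA
    have h1 := h r hr (A.map σ.toEmbedding) (by rw [Finset.card_map, hA])
    rw [Finset.sum_map] at h1
    refine le_trans (le_of_eq ?_) h1
    exact Finset.sum_congr rfl fun i _ => (hT x i).symm
  · intro h r hr A hA
    have h1 := h r hr (A.map σ.symm.toEmbedding) (by rw [Finset.card_map, hA])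
    rw [Finset.sum_map] at h1
    refine le_trans (le_of_eq ?_) h1
    refine Finset.sum_congr rfl fun i _ => ?_
    have h2 := hT x (σ.symm i)
    rw [Equiv.apply_symm_apply] at h2
    exact h2

theorem fae (hCHV : CHVStmt) (hPLC : PLCStmt) (hNRM : NRMStmt) (hSYM : SYMStmt)
    (hWDI : WDIStmt) (hDER : DERStmt) : FAEStmt := by
  classical
  intro n φ hn hφ
  obtain ⟨κ, hκ, hV⟩ := hCHV n φ (by omega) hφ
  refine ⟨κ, hκ, ?_⟩
  intro R H hR hH A hA
  obtain ⟨hN1, hN2, hN3⟩ := hNRM n φ hφ
  obtain ⟨hUn, hBd, hPl⟩ := hPLC n φ R hφ hR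
  obtain ⟨hPlH, hcH, hCb⟩ := hPl H
  obtain ⟨r, hr⟩ : ∃ r, r = A.card := ⟨_, rfl⟩
  rw [← hr] at hA ⊢
  have hrR : ∀ s ∈ R, 0 < s ∧ s < n + 1 := fun s hs => by
    have := hR.2 s hs; omega
  have hnu : 0 < nu n r := by
    have := (hN2 A (by rw [← hr]; exact (hrR r hA).1) (by rw [← hr]; exact (hrR r hA).2)).1
    rwa [← hr] at this
  -- all facets of the class have the same area
  have hsame : ∀ B : Finset (Fin (n + 1)), B.card = r →
      fa (UU φ R) (cH φ R H) (wn φ B) = fa (UU φ R) (cH φ R H) (wn φ A) := by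
    intro B hB
    obtain ⟨σ, hσ⟩ := exists_perm A B (by rw [← hr, hB])
    obtain ⟨T, hT1, hT2⟩ := hSYM n φ hφ σ
    have hw : T (wn φ A) = wn φ B := by rw [hT2 A, hσ]
    have hc : cH φ R H (wn φ B) = cH φ R H (wn φ A) := by
      rw [hcH A (by rw [← hr]; exact hA), hcH B (by rw [hB]; exact hA), hB, ← hr]
    unfold fa
    rw [← hw]
    apply ar_T
    intro x
    unfold Fc
    rw [mem_setOf_eq, mem_setOf_eq, hPlH, PP_iff φ R H σ T hT1, T.inner_map_map, hw, hc]
  -- the direction of the variation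
  obtain ⟨d, hd⟩ : ∃ d : E n → ℝ, d = fun v =>
      if ∃ B : Finset (Fin (n + 1)), B.card = r ∧ wn φ B = v then (nu n r)⁻¹ else 0 := ⟨_, rfl⟩
  have hd0 : ∀ w ∈ UU φ R, 0 ≤ d w := by
    intro w _
    rw [hd]
    dsimp only
    split_ifs
    · exact inv_nonneg.2 hnu.le
    · exact le_rfl
  have hd1 : ∀ B : Finset (Fin (n + 1)), B.card ∈ R →
      d (wn φ B) = if B.card = r then (nu n r)⁻¹ else 0 := by
    intro B hB
    rw [hd]
    dsimp only
    by_cases h : B.card = r
    · rw [if_pos ⟨B, h, rfl⟩, if_pos h]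
    · rw [if_neg, if_neg h]
      rintro ⟨C, hC, hCB⟩
      have := (hN2 C (by rw [hC]; exact (hrR r hA).1) (by rw [hC]; exact (hrR r hA).2)).2.2.2.2.2
        B (hrR _ hB).1 (hrR _ hB).2 hCB
      exact h (by rw [← this, hC])
  have hfull : Full (Pl (UU φ R) (cH φ R H)) := by
    rw [hPlH]
    exact (hCb hH).full
  have hder := hDER n (UU φ R) (cH φ R H) d hUn hBd hfull hd0
  -- the sum
  have hsum : ∑ w ∈ UU φ R, fa (UU φ R) (cH φ R H) w * d w =
      ((n + 1).choose r : ℝ) * (fa (UU φ R) (cH φ R H) (wn φ A) * (nu n r)⁻¹) := by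
    have hinj : ∀ B ∈ (Finset.univ.filter fun B : Finset (Fin (n + 1)) => B.card ∈ R),
        ∀ C ∈ (Finset.univ.filter fun B : Finset (Fin (n + 1)) => B.card ∈ R),
          wn φ B = wn φ C → B = C := by
      intro B hB C hC h
      have hB' := (Finset.mem_filter.1 hB).2
      have hC' := (Finset.mem_filter.1 hC).2
      exact (hN2 B (hrR _ hB').1 (hrR _ hB').2).2.2.2.2.2 C (hrR _ hC').1 (hrR _ hC').2 h
    have e1 : ∑ w ∈ UU φ R, fa (UU φ R) (cH φ R H) w * d w =
        ∑ B ∈ (Finset.univ.filter fun B : Finset (Fin (n + 1)) => B.card ∈ R),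
          fa (UU φ R) (cH φ R H) (wn φ B) * d (wn φ B) := by
      have hU : UU φ R =
          (Finset.univ.filter fun B : Finset (Fin (n + 1)) => B.card ∈ R).image (wn φ) := by
        unfold UU
        ext v
        simp only [Finset.mem_image, Finset.mem_filter, Finset.mem_univ, true_and]
      calc ∑ w ∈ UU φ R, fa (UU φ R) (cH φ R H) w * d w
          = ∑ w ∈ (Finset.univ.filter fun B : Finset (Fin (n + 1)) => B.card ∈ R).image (wn φ),
              fa (UU φ R) (cH φ R H) w * d w := Finset.sum_congr hU fun _ _ => rfl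
        _ = _ := Finset.sum_image hinj
    have e2 : ∑ B ∈ (Finset.univ.filter fun B : Finset (Fin (n + 1)) => B.card ∈ R),
          fa (UU φ R) (cH φ R H) (wn φ B) * d (wn φ B) =
        ∑ B ∈ Finset.powersetCard r (Finset.univ : Finset (Fin (n + 1))),
          fa (UU φ R) (cH φ R H) (wn φ A) * (nu n r)⁻¹ := by
      symm
      apply Finset.sum_subset_zero_on_sdiff
      · intro B hB
        have hB' := (Finset.mem_powersetCard.1 hB).2
        exact Finset.mem_filter.2 ⟨Finset.mem_univ _, by rw [hB']; exact hA⟩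
      · intro B hB
        rw [Finset.mem_sdiff, Finset.mem_filter, Finset.mem_powersetCard] at hB
        have hne : B.card ≠ r := fun h => hB.2 ⟨Finset.subset_univ _, h⟩
        rw [hd1 B hB.1.2, if_neg hne, mul_zero]
      · intro B hB
        have hB' := (Finset.mem_powersetCard.1 hB).2
        rw [hd1 B (by rw [hB']; exact hA), if_pos hB', hsame B hB']
    rw [e1, e2, Finset.sum_const, Finset.card_powersetCard, Finset.card_univ, Fintype.card_fin,
      nsmul_eq_mul]
  rw [hsum] at hder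
  -- the volume of the varied polytope
  have hvol : ∀ t : ℝ, vl (Pl (UU φ R) fun w => cH φ R H w + t * d w) =
      κ * W n R (Function.update H r (H r + t)) := by
    intro t
    rw [← hV R (Function.update H r (H r + t)) hR]
    obtain ⟨hPl', hcH', -⟩ := hPl (Function.update H r (H r + t))
    rw [← hPl']
    congr 1
    have hw : ∀ w ∈ UU φ R, cH φ R H w + t * d w =
        cH φ R (Function.update H r (H r + t)) w := by
      intro w hw
      unfold UU at hw
      obtain ⟨B, hB, rfl⟩ := Finset.mem_image.1 hw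
      have hB' := (Finset.mem_filter.1 hB).2
      rw [hd1 B hB', hcH B hB', hcH' B hB']
      by_cases h : B.card = r
      · rw [if_pos h, h, Function.update_self]
        rw [add_div, div_eq_mul_inv t]
      · rw [if_neg h, Function.update_of_ne h, mul_zero, add_zero]
    ext x
    constructor
    · intro hx w hwU
      rw [← hw w hwU]
      exact hx w hwU
    · intro hx w hwU
      have := hx w hwU
      rw [← hw w hwU] at this
      exact this
  have hvol0 : vl (Pl (UU φ R) (cH φ R H)) = κ * W n R (Function.update H r (H r)) := by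
    rw [hPlH, hV R H hR, Function.update_eq_self]
  have hW := hWDI n R H hn hR hH r hA
  have hW' : Tendsto (fun t : ℝ => κ * (t⁻¹ • (W n R (Function.update H r (H r + t)) -
      W n R (Function.update H r (H r))))) (𝓝[>] 0) (𝓝 (κ * dW n R H r)) := by
    refine Tendsto.const_mul κ ?_
    have h1 := (hasDerivAt_iff_tendsto_slope_zero.1 hW)
    exact h1.mono_left (nhdsWithin_mono 0 fun t ht => (ne_of_gt ht : t ≠ 0))
  have heq : (fun t : ℝ => (vl (Pl (UU φ R) fun w => cH φ R H w + t * d w) -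
      vl (Pl (UU φ R) (cH φ R H))) / t) =
      fun t : ℝ => κ * (t⁻¹ • (W n R (Function.update H r (H r + t)) -
      W n R (Function.update H r (H r)))) := by
    funext t
    rw [hvol t, hvol0, smul_eq_mul, div_eq_inv_mul]
    ring
  rw [heq] at hder
  have hu := tendsto_nhds_unique hder hW'
  have hch : (0 : ℝ) < ((n + 1).choose r : ℝ) := by
    exact_mod_cast Nat.choose_pos (hrR r hA).2.le
  rw [eq_div_iff hch.ne']
  have h2 : fa (UU φ R) (cH φ R H) (wn φ A) * ((n + 1).choose r : ℝ) =
      (((n + 1).choose r : ℝ) * (fa (UU φ R) (cH φ R H) (wn φ A) * (nu n r)⁻¹)) * nu n r := by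
    field_simp
  rw [h2, hu]
  ring

end PVD.H30
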